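import Mathlib
import Pool.Agent.MZA.Sym

set_option autoImplicit false

/-!
# Every depth (MP_2000e9_nt): counting
-/

namespace Pool.Agent.MZTR

open Pool.Agent.Helper21 (zl)
open Pool.Agent.MZA

/-- The indices of weight `n` and depth `r` whose multiple zeta value is not in `V`. -/
def OutR (V : Set ℝ) (n r : ℕ) : Set (List ℕ) := {w | w ∈ Idx n ∧ w.length = r ∧ zl w ∉ V}

theorem outR_finite (V : Set ℝ) (n r : ℕ) : (OutR V n r).Finite := by
  refine ((List.finite_length_eq (Fin (n + 1)) r).image
      (fun l : List (Fin (n + 1)) => l.map Fin.val)).subset ?_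
  rintro w ⟨hw, hl, -⟩
  have hle : ∀ a ∈ w, a < n + 1 := by
    intro a ha
    have := List.single_le_sum (fun x _ => Nat.zero_le x) a ha
    rw [hw.2.2] at this
    omega
  refine ⟨w.pmap (fun a h => (⟨a, h⟩ : Fin (n + 1))) hle, ?_, ?_⟩
  · simp [hl]
  · simp [List.map_pmap]

theorem count {ι : Type*} [Fintype ι] {V : Set ℝ} {n r : ℕ} (x : ι → List ℕ)
    (hlen : ∀ p, (x p).length = r) (hsum : ∀ p, (x p).sum = n) (h2 : ∀ p, ∀ a ∈ x p, 2 ≤ a)
    (hinj : Function.Injective x)
    (hbad : ∀ p, ∃ w, w.Perm (x p) ∧ zl w ∉ V) :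
    Fintype.card ι ≤ r.factorial * (OutR V n r).ncard := by
  classical
  choose w hw hwV using hbad
  have hfin := outR_finite V n r
  have hmem : ∀ p, w p ∈ OutR V n r := by
    intro p
    have h2' : ∀ a ∈ w p, 2 ≤ a := fun a ha => h2 p a ((hw p).mem_iff.1 ha)
    refine ⟨⟨fun a ha => ?_, ?_, ?_⟩, ?_, hwV p⟩
    · have := h2' a ha
      omega
    · rintro a t hat
      exact h2' a (by rw [hat]; exact List.mem_cons_self)
    · rw [(hw p).sum_eq, hsum p]
    · rw [(hw p).length_eq, hlen p]
  have h3 : (Finset.univ : Finset ι).card ≤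
      r.factorial * ((Finset.univ : Finset ι).image w).card := by
    apply Finset.card_le_mul_card_image
    intro b hb
    obtain ⟨q, -, rfl⟩ := Finset.mem_image.1 hb
    have h4 : (Finset.univ.filter fun p => w p = w q).card ≤
        ((w q).permutations.toFinset).card := by
      apply Finset.card_le_card_of_injOn x
      · intro p hp
        simp only [Finset.coe_filter, Finset.mem_univ, true_and, Set.mem_setOf_eq] at hp
        simp only [Finset.mem_coe, List.mem_toFinset, List.mem_permutations]
        rw [← hp]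
        exact (hw p).symm
      · intro p _ q _ h
        exact hinj h
    refine h4.trans ((List.toFinset_card_le _).trans ?_)
    rw [List.length_permutations, (hw q).length_eq, hlen q]
  have h5 : ((Finset.univ : Finset ι).image w).card ≤ (OutR V n r).ncard := by
    rw [Set.ncard_eq_toFinset_card _ hfin]
    apply Finset.card_le_card
    intro b hb
    obtain ⟨q, -, rfl⟩ := Finset.mem_image.1 hb
    rw [Set.Finite.mem_toFinset]
    exact hmem q
  rw [Finset.card_univ] at h3
  exact h3.trans (Nat.mul_le_mul_left _ h5)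

/-- **Counting.** For every point `p` of `P` one of the lists `F t p` has a permutation with value
outside `V`. -/
theorem count_family {P T : Type*} [Fintype P] [Fintype T] {V : Set ℝ} {n r : ℕ}
    (F : T → P → List ℕ) (hlen : ∀ t p, (F t p).length = r) (hsum : ∀ t p, (F t p).sum = n)
    (h2 : ∀ t p, ∀ a ∈ F t p, 2 ≤ a) (hinj : ∀ t, Function.Injective (F t))
    (hbad : ∀ p, ∃ t, ∃ w, w.Perm (F t p) ∧ zl w ∉ V) :
    Fintype.card P ≤ Fintype.card T * (r.factorial * (OutR V n r).ncard) := by
  classical
  choose t ht using hbad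
  have h1 : (Finset.univ : Finset P).card ≤
      ∑ s : T, (Finset.univ.filter fun p => t p = s).card := by
    rw [Finset.card_eq_sum_card_fiberwise (f := t) (t := Finset.univ)
      (fun _ _ => Finset.mem_coe.2 (Finset.mem_univ _))]
  have h3 : ∀ s : T, (Finset.univ.filter fun p => t p = s).card ≤
      r.factorial * (OutR V n r).ncard := by
    intro s
    have h4 := count (V := V) (n := n) (r := r) (ι := {p : P // t p = s}) (fun p => F s p.1)
      (fun p => hlen s p.1) (fun p => hsum s p.1) (fun p => h2 s p.1)
      (fun p q h => Subtype.ext (hinj s h)) (fun p => by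
        have := ht p.1
        rw [p.2] at this
        exact this)
    rwa [Fintype.card_subtype] at h4
  rw [Finset.card_univ] at h1
  refine h1.trans ?_
  calc ∑ s : T, (Finset.univ.filter fun p => t p = s).card
      ≤ ∑ _s : T, r.factorial * (OutR V n r).ncard := Finset.sum_le_sum fun s _ => h3 s
    _ = Fintype.card T * (r.factorial * (OutR V n r).ncard) := by
        rw [Finset.sum_const, Finset.card_univ, smul_eq_mul]

/-- If the symmetric sum is not in the additive subgroup `V`, some permutation is not in `V`. -/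
theorem exists_perm_notMem {V : AddSubmonoid ℝ} {L : List ℕ}
    (h : SymAux.sf zl L.permutations' ∉ V) : ∃ w, w.Perm L ∧ zl w ∉ (V : Set ℝ) := by
  by_contra hcon
  push Not at hcon
  apply h
  unfold SymAux.sf
  apply AddSubmonoid.list_sum_mem
  intro y hy
  obtain ⟨w, hw, rfl⟩ := List.mem_map.1 hy
  exact hcon w (List.mem_permutations'.1 hw)

/-- The counting with symmetric sums. -/
theorem count_sym {K : Type*} [Semiring K] [Module K ℝ] {P T : Type*} [Fintype P] [Fintype T]
    (V : Submodule K ℝ) {n r : ℕ}
    (F : T → P → List ℕ) (hlen : ∀ t p, (F t p).length = r) (hsum : ∀ t p, (F t p).sum = n)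
    (h2 : ∀ t p, ∀ a ∈ F t p, 2 ≤ a) (hinj : ∀ t, Function.Injective (F t))
    (hbad : ∀ p, ∃ t, SymAux.sf zl (F t p).permutations' ∉ V) :
    Fintype.card P ≤ Fintype.card T * (r.factorial * (OutR (V : Set ℝ) n r).ncard) := by
  refine count_family F hlen hsum h2 hinj fun p => ?_
  obtain ⟨t, ht⟩ := hbad p
  exact ⟨t, exists_perm_notMem (V := V.toAddSubmonoid) ht⟩

end Pool.Agent.MZTR
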