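import Mathlib
import Pool.Agent.MZG.Defs

set_option autoImplicit false

/-! MZG: pigeonhole for the module ODD (from GOOD, F, BASE). -/

namespace Pool.Agent.MZG

open Pool.Agent.Helper21 (mzv H zl Adm)
open Pool.Agent.MZA

/-- the box -/
def Bx (N : ℕ) {k : ℕ} (p : Fin k → ℕ) : Prop := ∀ i, 1 ≤ p i ∧ p i ≤ N

theorem row_sum {K : ℕ} (C : ℕ) (b : Fin (K + 1) → ℕ) (i : ℕ) (hb : ∀ m, C * i ≤ b m) :
    ∑ m, row C b i m = ∑ m, b m := by
  rw [Fin.sum_univ_succ, Fin.sum_univ_succ]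
  have h1 : row C b i 0 = b 0 + K * C * i := by simp [row]
  have h2 : ∀ m : Fin K, row C b i m.succ = b m.succ - C * i := fun m => by
    simp [row]
  rw [h1, Finset.sum_congr rfl fun m _ => h2 m]
  have h3 : ∑ m : Fin K, b m.succ = ∑ m : Fin K, (b m.succ - C * i) + K * (C * i) := by
    have h4 : ∑ _m : Fin K, (C * i) = K * (C * i) := by simp
    rw [← h4, ← Finset.sum_add_distrib]
    exact Finset.sum_congr rfl fun m _ => (Nat.sub_add_cancel (hb _)).symm
  rw [h3]
  ring

theorem sh_sum {k : ℕ} (x : Fin k → ℕ) (S : Finset (Fin k)) : ∑ m, sh x S m = ∑ m, x m + 2 * S.card := by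
  unfold sh
  rw [Finset.sum_add_distrib, Finset.sum_ite_mem, Finset.univ_inter, Finset.sum_const, smul_eq_mul,
    mul_comm]

theorem sh_inj {k : ℕ} (x y : Fin k → ℕ) (S : Finset (Fin k)) (h : sh x S = sh y S) : x = y := by
  funext m
  have := congrFun h m
  simpa [sh] using this

theorem row_inj {K : ℕ} (C : ℕ) (b b' : Fin (K + 1) → ℕ) (i : ℕ) (hb : ∀ m, C * i ≤ b m)
    (hb' : ∀ m, C * i ≤ b' m) (h : row C b i = row C b' i) : b = b' := by
  funext m
  have h1 := congrFun h m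
  have h2 := hb m
  have h3 := hb' m
  unfold row at h1
  split_ifs at h1 <;> omega

theorem PIG (hGOOD : St_GOOD) (hF : St_F) (hB : St_BASE) (K : ℕ) (hK : 1 ≤ K) :
    ∃ h₀ : ℕ, ∀ (V : Submodule ℚ ℝ) (n h N : ℕ) (I J' : Type) [Fintype I] [Fintype J']
      (i₀ : I → Fin (K + 1)) (u : I → (Fin (K + 1) → ℕ) → ℕ)
      (g : J' → (Fin (K + 1) → ℕ) → (Fin (K + 1) → ℕ)), h₀ ≤ h → 2 * N ≤ h →
      (∀ i p, Bx N p → Even (u i p) ∧ 4 * (K + 1) ^ 2 * h ≤ u i p ∧ u i p + 2 * K + 6 ≤ n) →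
      (∀ i p p', Bx N p → Bx N p' → u i p = u i p' →
        (∀ m, p ((i₀ i).succAbove m) = p' ((i₀ i).succAbove m)) → p = p') →
      (∀ j p, Bx N p → (∀ m, 2 ≤ g j p m) ∧ ∑ m, g j p m + 2 ≤ n) →
      (∀ j p p', Bx N p → Bx N p' → g j p = g j p' → p = p') →
      (K + 2).factorial * (Fintype.card I * ((K + 2) * 2 ^ (K + 1)) + Fintype.card J') *
        (Out V n (K + 2)).ncard < N ^ (K + 1) →
      ∃ p, Bx N p ∧ (∀ i, z (u i p) * z (n - u i p) ∈ V) ∧ ∀ j, Clean V n (g j p) := by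
  obtain ⟨C, G, hC, hCe, hG⟩ := hGOOD K hK
  refine ⟨G + C * (K + 1) + 2, ?_⟩
  intro V n h N I J' _ _ i₀ u g hh hN hu hui hg hgi hlt
  classical
  -- the facts on the base
  have hbase : ∀ (i : I) (p : Fin (K + 1) → ℕ), Bx N p →
      ∑ m, base h (i₀ i) (u i p) p m = u i p ∧ (∀ m, Even (base h (i₀ i) (u i p) p m)) ∧
      (∀ m, G + C * (K + 1) + 2 ≤ base h (i₀ i) (u i p) p m) ∧
      ∀ m m' : Fin (K + 1), m < m' → base h (i₀ i) (u i p) p m' + (G + C * (K + 1) + 2) ≤
        base h (i₀ i) (u i p) p m := by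
    intro i p hp
    obtain ⟨h1, h2, h3⟩ := hu i p hp
    exact hB K (G + C * (K + 1) + 2) h (u i p) (i₀ i) p hK hh
      (fun j => by have := (hp j).2; omega) h1 h2
  have hCi : ∀ (i : I) (p : Fin (K + 1) → ℕ), Bx N p → ∀ (a : Fin (K + 2)) (m : Fin (K + 1)),
      C * (a : ℕ) + 2 ≤ base h (i₀ i) (u i p) p m := by
    intro i p hp a m
    have h1 := (hbase i p hp).2.2.1 m
    have h2 : C * (a : ℕ) ≤ C * (K + 1) := Nat.mul_le_mul_left _ (by have := a.2; omega)
    omega
  by_contra hcon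
  push Not at hcon
  have key := hF V n (K + 1) N ((I × Fin (K + 2) × Finset (Fin (K + 1))) ⊕ J')
    (fun t p => match t with
      | Sum.inl (i, a, S) => sh (row C (base h (i₀ i) (u i p) p) (a : ℕ)) S
      | Sum.inr j => g j p) ?_ ?_ ?_
  · rw [Fintype.card_sum, Fintype.card_prod, Fintype.card_prod, Fintype.card_fin,
      Fintype.card_finset, Fintype.card_fin] at key
    exact absurd (key.trans_lt hlt) (lt_irrefl _)
  · rintro (⟨i, a, S⟩ | j) p hp
    · refine ⟨fun m => ?_, ?_⟩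
      · have h1 := hCi i p hp a m
        show 2 ≤ sh (row C (base h (i₀ i) (u i p) p) (a : ℕ)) S m
        unfold sh row
        split_ifs <;> omega
      · show ∑ m, sh (row C (base h (i₀ i) (u i p) p) (a : ℕ)) S m + 2 ≤ n
        rw [sh_sum, row_sum _ _ _ (fun m => by have := hCi i p hp a m; omega), (hbase i p hp).1]
        have h1 := (hu i p hp).2.2
        have h2 : S.card ≤ K + 1 := by simpa using S.card_le_univ
        omega
    · exact hg j p hp
  · rintro (⟨i, a, S⟩ | j) p p' hp hp' he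
    · have h1 := row_inj _ _ _ _ (fun m => by have := hCi i p hp a m; omega)
        (fun m => by have := hCi i p' hp' a m; omega) (sh_inj _ _ _ he)
      have h2 : u i p = u i p' := by
        rw [← (hbase i p hp).1, ← (hbase i p' hp').1, h1]
      refine hui i p p' hp hp' h2 fun m => ?_
      have h3 := congrFun h1 m.succ
      unfold base at h3
      rw [Fin.cons_succ, Fin.cons_succ] at h3
      omega
    · exact hgi j p p' hp hp' he
  · intro p hp
    by_contra hall
    push Not at hall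
    obtain ⟨j, hj⟩ := hcon p hp (fun i => by
      have h0 := hbase i p hp
      have h1 := hG V n (base h (i₀ i) (u i p) p) h0.2.1
        (fun m => by have := h0.2.2.1 m; omega)
        (fun m m' hm => by have := h0.2.2.2 m m' hm; omega)
        (by rw [h0.1]; exact (hu i p hp).2.2)
        (fun a ha S => hall (Sum.inl (i, ⟨a, by omega⟩, S)))
      rwa [h0.1] at h1)
    exact hj (hall (Sum.inr j))

end Pool.Agent.MZG
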